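import Mathlib

/-!
# Benzels are tileable by right stones and bones whenever `I(a,b) ≥ 0`

Proof outline (by reflection `a ≤ b`).
* `a + b ≡ 1` mod `3` (`class_one`): right stones only.
* `a + b ≡ 2` mod `3` (`class_two`): for `b ≤ 2a - 4` the benzel `B(a,b)` is the disjoint union of
  a translate of `B(a-3,b-3)`, one right stone and two families of bones (`ring2`); the induction
  ends with `B(a,2a-1) = B(a,2a-2)`, which is in the first class.
* `a + b ≡ 0` mod `3`: write `a = 3τ - 2m`, `b = 3τ - m`; then `I(a,b) ≥ 0` and `b ≤ 2a` mean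
  `m ≤ τ ≤ m(m+1)/2`.  The three corners of `B(3τ-2m,3τ-m)` are tiled by bones (`corners`), and
  for the rest `T(m,τ)` (`regT`) there are two induction steps:
  `thin`:  `T(m,τ)` = translate of `T(m-1,τ-1)` + `m-1` right stones + bones, and
  `thick`: `T(m,τ)` = `T(m-2,τ-2m+1)` + three congruent families of rows of bones (`τ ≥ 3m-3`).
  They reduce everything to `T(1,1) = ∅`, `T(2,3)`, `T(3,5)` and `T(4,8)`.
-/

namespace Pool.Agent.Results.MP_59b97c_co.RightStonesBones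

/-- Points of `ℤ³`. -/
abbrev V := ℤ × ℤ × ℤ

/-- The (cells of the) `(a,b)`-benzel. -/
def benzel (a b : ℤ) : Set V :=
  {c | c.1 + c.2.1 + c.2.2 = 1 ∧
    -(a - 1) ≤ c.2.1 - c.1 ∧ c.2.1 - c.1 ≤ b - 1 ∧
    -(a - 1) ≤ c.2.2 - c.2.1 ∧ c.2.2 - c.2.1 ≤ b - 1 ∧
    -(a - 1) ≤ c.1 - c.2.2 ∧ c.1 - c.2.2 ≤ b - 1}

/-- The translate by `p` of the right stone `{(1,0,0), (0,1,0), (0,0,1)}`. -/
def rightStone (p : V) : Set V := {p + (1, 0, 0), p + (0, 1, 0), p + (0, 0, 1)}

/-- The bone `{c - v, c, c + v}`. -/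
def bone (c v : V) : Set V := {c - v, c, c + v}

/-- The allowed tiles: right stones, and bones of the three directions. -/
def IsTile (t : Set V) : Prop :=
  (∃ p : V, p.1 + p.2.1 + p.2.2 = 0 ∧ t = rightStone p) ∨
  (∃ c v : V, c.1 + c.2.1 + c.2.2 = 1 ∧
    (v = (1, -1, 0) ∨ v = (0, 1, -1) ∨ v = (-1, 0, 1)) ∧ t = bone c v)

/-- `T` is a type 103 tiling of the region with set of cells `S`: a partition of `S` into
right stones and bones. -/
def IsTiling (T : Set (Set V)) (S : Set V) : Prop :=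
  (∀ t ∈ T, IsTile t ∧ t ⊆ S) ∧ ∀ c ∈ S, ∃! t, t ∈ T ∧ c ∈ t

/-- The quantity `I(a,b)` exactly as in the problem. -/
def inv (a b : ℤ) : ℤ :=
  if (a + b) % 3 = 0 then (3 * a ^ 2 - 6 * a * b + 3 * b ^ 2 - a - b) / 2
  else if (a + b) % 3 = 1 then (-a ^ 2 + 4 * a * b - b ^ 2 - a - b + 2) / 2
  else (3 * a ^ 2 - 6 * a * b + 3 * b ^ 2 + a + b - 2) / 2

/-- `S` has a tiling by right stones and bones. -/
def Tileable (S : Set V) : Prop := ∃ T, IsTiling T S

lemma tileable_empty : Tileable ∅ := by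
  refine ⟨∅, ?_, ?_⟩
  · intro t ht; exact absurd ht (Set.notMem_empty t)
  · intro c hc; exact absurd hc (Set.notMem_empty c)

lemma tileable_union {S₁ S₂ : Set V} (h : ∀ c ∈ S₁, c ∉ S₂) (h₁ : Tileable S₁)
    (h₂ : Tileable S₂) : Tileable (S₁ ∪ S₂) := by
  obtain ⟨T₁, hT₁, hu₁⟩ := h₁
  obtain ⟨T₂, hT₂, hu₂⟩ := h₂
  refine ⟨T₁ ∪ T₂, ?_, ?_⟩
  · rintro t (ht | ht)
    · exact ⟨(hT₁ t ht).1, (hT₁ t ht).2.trans Set.subset_union_left⟩
    · exact ⟨(hT₂ t ht).1, (hT₂ t ht).2.trans Set.subset_union_right⟩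
  · rintro c (hc | hc)
    · obtain ⟨t, ⟨ht, hct⟩, hun⟩ := hu₁ c hc
      refine ⟨t, ⟨Or.inl ht, hct⟩, ?_⟩
      rintro t' ⟨ht' | ht', hct'⟩
      · exact hun t' ⟨ht', hct'⟩
      · exact absurd ((hT₂ t' ht').2 hct') (h c hc)
    · obtain ⟨t, ⟨ht, hct⟩, hun⟩ := hu₂ c hc
      refine ⟨t, ⟨Or.inr ht, hct⟩, ?_⟩
      rintro t' ⟨ht' | ht', hct'⟩
      · exact absurd hc (h c ((hT₁ t' ht').2 hct'))
      · exact hun t' ⟨ht', hct'⟩

/-- Transport of tilings along a bijection preserving tiles. -/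
lemma tileable_image {S : Set V} (e : V ≃ V) (he : ∀ t, IsTile t → IsTile (e '' t))
    (h : Tileable S) : Tileable (e '' S) := by
  obtain ⟨T, hT, hu⟩ := h
  refine ⟨(fun t => e '' t) '' T, ?_, ?_⟩
  · rintro _ ⟨t, ht, rfl⟩
    exact ⟨he t (hT t ht).1, Set.image_mono (hT t ht).2⟩
  · rintro _ ⟨c, hc, rfl⟩
    obtain ⟨t, ⟨ht, hct⟩, hun⟩ := hu c hc
    refine ⟨e '' t, ⟨⟨t, ht, rfl⟩, ⟨c, hct, rfl⟩⟩, ?_⟩
    rintro _ ⟨⟨t', ht', rfl⟩, hct'⟩
    have : c ∈ t' := by
      obtain ⟨c', hc', hcc⟩ := hct'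
      rwa [← e.injective hcc]
    rw [hun t' ⟨ht', this⟩]

/-- The bone written from its first cell. -/
def bone3 (c d : V) : Set V := {c, c + d, c + d + d}

lemma bone3_tile (c d : V) (hc : c.1 + c.2.1 + c.2.2 = 1)
    (hd : d = (1, -1, 0) ∨ d = (0, 1, -1) ∨ d = (-1, 0, 1)) : IsTile (bone3 c d) := by
  right
  refine ⟨c + d, d, ?_, hd, ?_⟩
  · rcases hd with rfl | rfl | rfl <;> simp only [Prod.fst_add, Prod.snd_add] <;> omega
  · simp only [bone3, bone, add_sub_cancel_right]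

/-- Bones in one direction. -/
lemma tileable_bones {S B : Set V} (d : V)
    (hd : d = (1, -1, 0) ∨ d = (0, 1, -1) ∨ d = (-1, 0, 1))
    (h1 : ∀ c ∈ B, c.1 + c.2.1 + c.2.2 = 1 ∧ c ∈ S ∧ c + d ∈ S ∧ c + d + d ∈ S)
    (h2 : ∀ c ∈ S, (c ∈ B ∧ c - d ∉ B ∧ c - d - d ∉ B) ∨ (c ∉ B ∧ c - d ∈ B ∧ c - d - d ∉ B) ∨
      (c ∉ B ∧ c - d ∉ B ∧ c - d - d ∈ B)) : Tileable S := by
  refine ⟨{t | ∃ c ∈ B, t = bone3 c d}, ?_, ?_⟩
  · rintro t ⟨c, hc, rfl⟩
    refine ⟨bone3_tile c d (h1 c hc).1 hd, ?_⟩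
    rintro x (rfl | rfl | rfl)
    · exact (h1 _ hc).2.1
    · exact (h1 _ hc).2.2.1
    · exact (h1 _ hc).2.2.2
  · intro c hc
    have key : ∀ c' ∈ B, c ∈ bone3 c' d → c' = c ∨ c' = c - d ∨ c' = c - d - d := by
      rintro c' - (h | h | h)
      · exact Or.inl h.symm
      · exact Or.inr (Or.inl (by rw [h]; abel))
      · exact Or.inr (Or.inr (by rw [h]; abel))
    rcases h2 c hc with ⟨ha, hb, hcc⟩ | ⟨ha, hb, hcc⟩ | ⟨ha, hb, hcc⟩
    · refine ⟨bone3 c d, ⟨⟨c, ha, rfl⟩, Or.inl rfl⟩, ?_⟩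
      rintro t ⟨⟨c', hc', rfl⟩, hct⟩
      rcases key c' hc' hct with h | h | h
      · rw [h]
      · exact absurd (h ▸ hc') hb
      · exact absurd (h ▸ hc') hcc
    · refine ⟨bone3 (c - d) d, ⟨⟨c - d, hb, rfl⟩, Or.inr (Or.inl (by abel))⟩, ?_⟩
      rintro t ⟨⟨c', hc', rfl⟩, hct⟩
      rcases key c' hc' hct with h | h | h
      · exact absurd (h ▸ hc') ha
      · rw [h]
      · exact absurd (h ▸ hc') hcc
    · refine ⟨bone3 (c - d - d) d, ⟨⟨c - d - d, hcc, rfl⟩, Or.inr (Or.inr (by simp))⟩, ?_⟩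
      rintro t ⟨⟨c', hc', rfl⟩, hct⟩
      rcases key c' hc' hct with h | h | h
      · exact absurd (h ▸ hc') ha
      · exact absurd (h ▸ hc') hb
      · rw [h]

/-- Right stones only. -/
lemma tileable_stones {S P : Set V}
    (h1 : ∀ p ∈ P, p.1 + p.2.1 + p.2.2 = 0 ∧ p + (1, 0, 0) ∈ S ∧ p + (0, 1, 0) ∈ S ∧
      p + (0, 0, 1) ∈ S)
    (h2 : ∀ c ∈ S, (c - (1, 0, 0) ∈ P ∧ c - (0, 1, 0) ∉ P ∧ c - (0, 0, 1) ∉ P) ∨
      (c - (1, 0, 0) ∉ P ∧ c - (0, 1, 0) ∈ P ∧ c - (0, 0, 1) ∉ P) ∨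
      (c - (1, 0, 0) ∉ P ∧ c - (0, 1, 0) ∉ P ∧ c - (0, 0, 1) ∈ P)) : Tileable S := by
  refine ⟨{t | ∃ p ∈ P, t = rightStone p}, ?_, ?_⟩
  · rintro t ⟨p, hp, rfl⟩
    refine ⟨Or.inl ⟨p, (h1 p hp).1, rfl⟩, ?_⟩
    rintro x (rfl | rfl | rfl)
    · exact (h1 _ hp).2.1
    · exact (h1 _ hp).2.2.1
    · exact (h1 _ hp).2.2.2
  · intro c hc
    have key : ∀ p ∈ P, c ∈ rightStone p →
        p = c - (1, 0, 0) ∨ p = c - (0, 1, 0) ∨ p = c - (0, 0, 1) := by
      rintro p - (h | h | h)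
      · exact Or.inl (by rw [h]; abel)
      · exact Or.inr (Or.inl (by rw [h]; abel))
      · exact Or.inr (Or.inr (by rw [h]; abel))
    rcases h2 c hc with ⟨ha, hb, hcc⟩ | ⟨ha, hb, hcc⟩ | ⟨ha, hb, hcc⟩
    · refine ⟨rightStone (c - (1, 0, 0)), ⟨⟨_, ha, rfl⟩, Or.inl (by abel)⟩, ?_⟩
      rintro t ⟨⟨p, hp, rfl⟩, hct⟩
      rcases key p hp hct with h | h | h
      · rw [h]
      · exact absurd (h ▸ hp) hb
      · exact absurd (h ▸ hp) hcc
    · refine ⟨rightStone (c - (0, 1, 0)), ⟨⟨_, hb, rfl⟩, Or.inr (Or.inl (by abel))⟩, ?_⟩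
      rintro t ⟨⟨p, hp, rfl⟩, hct⟩
      rcases key p hp hct with h | h | h
      · exact absurd (h ▸ hp) ha
      · rw [h]
      · exact absurd (h ▸ hp) hcc
    · refine ⟨rightStone (c - (0, 0, 1)), ⟨⟨_, hcc, rfl⟩, Or.inr (Or.inr (by simp))⟩, ?_⟩
      rintro t ⟨⟨p, hp, rfl⟩, hct⟩
      rcases key p hp hct with h | h | h
      · exact absurd (h ▸ hp) ha
      · exact absurd (h ▸ hp) hb
      · rw [h]

/-- The rotation `(i,j,k) ↦ (k,i,j)`. -/
def rot : V ≃ V where
  toFun c := (c.2.2, c.1, c.2.1)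
  invFun c := (c.2.1, c.2.2, c.1)
  left_inv := fun _ => rfl
  right_inv := fun _ => rfl

/-- The reflection `(i,j,k) ↦ (j,i,k)`. -/
def swp : V ≃ V where
  toFun c := (c.2.1, c.1, c.2.2)
  invFun c := (c.2.1, c.1, c.2.2)
  left_inv := fun _ => rfl
  right_inv := fun _ => rfl

lemma rot_tile (t : Set V) (ht : IsTile t) : IsTile (rot '' t) := by
  rcases ht with ⟨⟨q1, q2, q3⟩, hq, rfl⟩ | ⟨⟨c1, c2, c3⟩, d, hc, hd, rfl⟩
  · left
    refine ⟨(q3, q1, q2), by simp only at hq ⊢; omega, ?_⟩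
    simp only [rightStone, Set.image_insert_eq, Set.image_singleton, rot, Equiv.coe_fn_mk,
      Prod.mk_add_mk, add_zero]
    ext x
    simp only [Set.mem_insert_iff, Set.mem_singleton_iff]
    tauto
  · right
    simp only at hc
    rcases hd with rfl | rfl | rfl
    · exact ⟨(c3, c1, c2), (0, 1, -1), by simp only; omega, Or.inr (Or.inl rfl), by
        simp [bone, Set.image_insert_eq, Set.image_singleton, rot]⟩
    · exact ⟨(c3, c1, c2), (-1, 0, 1), by simp only; omega, Or.inr (Or.inr rfl), by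
        simp [bone, Set.image_insert_eq, Set.image_singleton, rot]⟩
    · exact ⟨(c3, c1, c2), (1, -1, 0), by simp only; omega, Or.inl rfl, by
        simp [bone, Set.image_insert_eq, Set.image_singleton, rot]⟩

lemma swp_tile (t : Set V) (ht : IsTile t) : IsTile (swp '' t) := by
  rcases ht with ⟨⟨q1, q2, q3⟩, hq, rfl⟩ | ⟨⟨c1, c2, c3⟩, d, hc, hd, rfl⟩
  · left
    refine ⟨(q2, q1, q3), by simp only at hq ⊢; omega, ?_⟩
    simp only [rightStone, Set.image_insert_eq, Set.image_singleton, swp, Equiv.coe_fn_mk,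
      Prod.mk_add_mk, add_zero]
    ext x
    simp only [Set.mem_insert_iff, Set.mem_singleton_iff]
    tauto
  · right
    simp only at hc
    rcases hd with rfl | rfl | rfl
    · refine ⟨(c2, c1, c3), (1, -1, 0), by simp only; omega, Or.inl rfl, ?_⟩
      simp only [bone, Set.image_insert_eq, Set.image_singleton, swp, Equiv.coe_fn_mk,
        Prod.mk_add_mk, Prod.mk_sub_mk]
      ext ⟨x, y, z⟩
      simp only [Set.mem_insert_iff, Set.mem_singleton_iff, Prod.mk.injEq]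
      omega
    · refine ⟨(c2, c1, c3), (-1, 0, 1), by simp only; omega, Or.inr (Or.inr rfl), ?_⟩
      simp only [bone, Set.image_insert_eq, Set.image_singleton, swp, Equiv.coe_fn_mk,
        Prod.mk_add_mk, Prod.mk_sub_mk]
      ext ⟨x, y, z⟩
      simp only [Set.mem_insert_iff, Set.mem_singleton_iff, Prod.mk.injEq]
      omega
    · refine ⟨(c2, c1, c3), (0, 1, -1), by simp only; omega, Or.inr (Or.inl rfl), ?_⟩
      simp only [bone, Set.image_insert_eq, Set.image_singleton, swp, Equiv.coe_fn_mk,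
        Prod.mk_add_mk, Prod.mk_sub_mk]
      ext ⟨x, y, z⟩
      simp only [Set.mem_insert_iff, Set.mem_singleton_iff, Prod.mk.injEq]
      omega

lemma add_tile (v : V) (hv : v.1 + v.2.1 + v.2.2 = 0) (t : Set V) (ht : IsTile t) :
    IsTile (Equiv.addRight v '' t) := by
  rcases ht with ⟨q, hq, rfl⟩ | ⟨c, d, hc, hd, rfl⟩
  · left
    refine ⟨q + v, by simp only [Prod.fst_add, Prod.snd_add]; omega, ?_⟩
    simp only [rightStone, Set.image_insert_eq, Set.image_singleton, Equiv.coe_addRight]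
    simp only [add_right_comm _ _ v]
  · right
    refine ⟨c + v, d, by simp only [Prod.fst_add, Prod.snd_add]; omega, hd, ?_⟩
    simp only [bone, Set.image_insert_eq, Set.image_singleton, Equiv.coe_addRight]
    simp only [add_right_comm _ d v, add_sub_right_comm]

lemma mem_benzel {a b i j k : ℤ} : ((i, j, k) : V) ∈ benzel a b ↔ (i + j + k = 1 ∧
    -(a - 1) ≤ j - i ∧ j - i ≤ b - 1 ∧ -(a - 1) ≤ k - j ∧ k - j ≤ b - 1 ∧
    -(a - 1) ≤ i - k ∧ i - k ≤ b - 1) := Iff.rfl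

lemma mem_rot {S : Set V} {i j k : ℤ} : ((i, j, k) : V) ∈ rot '' S ↔ ((j, k, i) : V) ∈ S := by
  constructor
  · rintro ⟨⟨x, y, z⟩, h, h'⟩
    simp only [rot, Equiv.coe_fn_mk, Prod.mk.injEq] at h'
    obtain ⟨rfl, rfl, rfl⟩ := h'
    exact h
  · intro h
    exact ⟨_, h, rfl⟩

lemma mem_swp {S : Set V} {i j k : ℤ} : ((i, j, k) : V) ∈ swp '' S ↔ ((j, i, k) : V) ∈ S := by
  constructor
  · rintro ⟨⟨x, y, z⟩, h, h'⟩
    simp only [swp, Equiv.coe_fn_mk, Prod.mk.injEq] at h'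
    obtain ⟨rfl, rfl, rfl⟩ := h'
    exact h
  · intro h
    exact ⟨_, h, rfl⟩

lemma mem_shift {S : Set V} {v1 v2 v3 i j k : ℤ} :
    ((i, j, k) : V) ∈ Equiv.addRight ((v1, v2, v3) : V) '' S ↔
    ((i - v1, j - v2, k - v3) : V) ∈ S := by
  constructor
  · rintro ⟨⟨x, y, z⟩, h, h'⟩
    simp only [Equiv.coe_addRight, Prod.mk_add_mk, Prod.mk.injEq] at h'
    obtain ⟨rfl, rfl, rfl⟩ := h'
    simpa using h
  · intro h
    refine ⟨_, h, ?_⟩
    simp only [Equiv.coe_addRight, Prod.mk_add_mk, sub_add_cancel]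

lemma mem_stone {q1 q2 q3 i j k : ℤ} : ((i, j, k) : V) ∈ rightStone (q1, q2, q3) ↔
    (i = q1 + 1 ∧ j = q2 ∧ k = q3) ∨ (i = q1 ∧ j = q2 + 1 ∧ k = q3) ∨
    (i = q1 ∧ j = q2 ∧ k = q3 + 1) := by
  simp only [rightStone, Prod.mk_add_mk, Set.mem_insert_iff, Set.mem_singleton_iff,
    Prod.mk.injEq, add_zero]

/-- A right stone is tileable. -/
lemma tileable_stone (q : V) (hq : q.1 + q.2.1 + q.2.2 = 0) : Tileable (rightStone q) := by
  refine ⟨{rightStone q}, ?_, ?_⟩
  · rintro t rfl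
    exact ⟨Or.inl ⟨q, hq, rfl⟩, le_rfl⟩
  · intro c hc
    refine ⟨rightStone q, ⟨rfl, hc⟩, ?_⟩
    rintro t ⟨ht, -⟩
    exact ht

/-- A set of integers that splits into triples of consecutive integers. -/
def Good (R : Set ℤ) : Prop := ∃ B : Set ℤ, (∀ i ∈ B, i ∈ R ∧ i + 1 ∈ R ∧ i + 2 ∈ R) ∧
  ∀ i ∈ R, (i ∈ B ∧ i - 1 ∉ B ∧ i - 2 ∉ B) ∨ (i ∉ B ∧ i - 1 ∈ B ∧ i - 2 ∉ B) ∨
    (i ∉ B ∧ i - 1 ∉ B ∧ i - 2 ∈ B)

lemma good_interval {R : Set ℤ} (l r : ℤ) (h : ∀ i, i ∈ R ↔ (l ≤ i ∧ i ≤ r))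
    (h3 : (r + 1 - l) % 3 = 0) : Good R := by
  refine ⟨{i | l ≤ i ∧ i ≤ r ∧ (i - l) % 3 = 0}, ?_, ?_⟩
  · rintro i ⟨h4, h5, h6⟩
    rw [h, h, h]; omega
  · intro i hi
    rw [h] at hi
    simp only [Set.mem_ofPred_eq]
    omega

lemma good_empty {R : Set ℤ} (h : ∀ i, i ∉ R) : Good R :=
  ⟨∅, fun i hi => absurd hi (Set.notMem_empty i), fun i hi => absurd hi (h i)⟩

lemma tileable_rows {S : Set V} (hS : ∀ c ∈ S, c.1 + c.2.1 + c.2.2 = 1)
    (h : ∀ k : ℤ, Good {i | ((i, 1 - i - k, k) : V) ∈ S}) : Tileable S := by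
  choose B hB1 hB2 using h
  apply tileable_bones (1, -1, 0) (Or.inl rfl)
    (B := {c : V | c.1 + c.2.1 + c.2.2 = 1 ∧ c.1 ∈ B c.2.2})
  · rintro ⟨i, j, k⟩ ⟨h1, h2⟩
    simp only at h1 h2
    obtain ⟨h3, h4, h5⟩ := hB1 k i h2
    simp only [Set.mem_ofPred_eq] at h3 h4 h5
    have e1 : j = 1 - i - k := by omega
    refine ⟨h1, ?_, ?_, ?_⟩
    · rw [e1]; exact h3
    · convert h4 using 1
      simp only [Prod.mk_add_mk, Prod.mk.injEq, add_zero, true_and, and_true]; omega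
    · convert h5 using 1
      simp only [Prod.mk_add_mk, Prod.mk.injEq, add_zero, and_true]; omega
  · rintro ⟨i, j, k⟩ hc
    have h1 := hS _ hc
    simp only at h1
    have e1 : j = 1 - i - k := by omega
    subst e1
    have h2 := hB2 k i hc
    have e2 : i - 1 - 1 = i - 2 := by ring
    simp only [Set.mem_ofPred_eq, Prod.mk_sub_mk, sub_zero, e2]
    have e3 : i + (1 - i - k) + k = 1 := by ring
    have e4 : i - 1 + (1 - i - k - -1) + k = 1 := by ring
    have e5 : i - 2 + (1 - i - k - -1 - -1) + k = 1 := by ring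
    simp only [e3, e4, e5, true_and]
    exact h2


/-- `a + b ≡ 1` mod `3`: right stones only. -/
lemma class_one (a b : ℤ) (h : (a + b) % 3 = 1) : Tileable (benzel a b) := by
  apply tileable_stones (P := {p : V | p.1 + p.2.1 + p.2.2 = 0 ∧ (p.2.1 - p.1 - b + 2) % 3 = 0 ∧
    -(a - 2) ≤ p.2.1 - p.1 ∧ p.2.1 - p.1 ≤ b - 2 ∧
    -(a - 2) ≤ p.2.2 - p.2.1 ∧ p.2.2 - p.2.1 ≤ b - 2 ∧
    -(a - 2) ≤ p.1 - p.2.2 ∧ p.1 - p.2.2 ≤ b - 2})
  · rintro ⟨i, j, k⟩ ⟨h1, h2, h3⟩
    simp only [mem_benzel, Prod.mk_add_mk] at *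
    omega
  · rintro ⟨i, j, k⟩ hc
    simp only [mem_benzel, Set.mem_ofPred_eq, Prod.mk_sub_mk] at *
    omega

lemma ringC (a b n : ℤ) (h : a + b + 1 = 3 * n) (h2 : a ≤ b) (h3 : b ≤ 2 * a - 4) :
    Tileable {c : V | c ∈ benzel a b ∧ c.2.1 ≤ a - n - 2 ∧
      (c.1 + 3, c.2.1, c.2.2 - 3) ∉ benzel a b} := by
  apply tileable_bones (-1, 0, 1) (Or.inr (Or.inr rfl))
    (B := {c : V | c ∈ benzel a b ∧ c.2.1 ≤ a - n - 2 ∧
      (c.1 + 1, c.2.1, c.2.2 - 1) ∉ benzel a b})
  · rintro ⟨i, j, k⟩ ⟨h4, h5, h6⟩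
    simp only [mem_benzel, Set.mem_ofPred_eq, Prod.mk_add_mk] at *
    omega
  · rintro ⟨i, j, k⟩ ⟨h4, h5, h6⟩
    simp only [mem_benzel, Set.mem_ofPred_eq, Prod.mk_sub_mk] at *
    omega

lemma ringB (a b n : ℤ) (h : a + b + 1 = 3 * n) (h2 : a ≤ b) (h3 : b ≤ 2 * a - 4) :
    Tileable {c : V | c ∈ benzel a b ∧ c.1 ≤ 2 * n - 2 - a ∧
      (c.1, c.2.1 + 3, c.2.2 - 3) ∉ benzel a b} := by
  apply tileable_bones (0, 1, -1) (Or.inr (Or.inl rfl))
    (B := {c : V | c ∈ benzel a b ∧ c.1 ≤ 2 * n - 2 - a ∧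
      (c.1, c.2.1 + 3, c.2.2 - 3) ∉ benzel a b ∧ (c.1, c.2.1 + 2, c.2.2 - 2) ∈ benzel a b})
  · rintro ⟨i, j, k⟩ ⟨h4, h5, h6, h7⟩
    simp only [mem_benzel, Set.mem_ofPred_eq, Prod.mk_add_mk] at *
    omega
  · rintro ⟨i, j, k⟩ ⟨h4, h5, h6⟩
    simp only [mem_benzel, Set.mem_ofPred_eq, Prod.mk_sub_mk] at *
    omega

/-- The ring between two consecutive benzels, `a + b ≡ 2` mod `3`. -/
lemma ring2 (a b n : ℤ) (h : a + b + 1 = 3 * n) (h2 : a ≤ b) (h3 : b ≤ 2 * a - 4)
    (hs : Tileable (benzel (a - 3) (b - 3))) : Tileable (benzel a b) := by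
  have hs' := tileable_image (Equiv.addRight ((-1, -1, 2) : V)) (add_tile _ (by norm_num)) hs
  have hL := tileable_stone (2 * n - 1 - a, a - n - 1, 2 - n) (by simp only; ring)
  have hC := ringC a b n h h2 h3
  have hB := ringB a b n h h2 h3
  have h12 := tileable_union ?_ hs' hL
  · have h34 := tileable_union ?_ hC hB
    · have h1234 := tileable_union ?_ h12 h34
      · convert h1234 using 1
        ext ⟨i, j, k⟩
        simp only [Set.mem_union, mem_shift, mem_stone, Set.mem_ofPred_eq, mem_benzel]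
        omega
      · rintro ⟨i, j, k⟩
        simp only [Set.mem_union, mem_shift, mem_stone, Set.mem_ofPred_eq, mem_benzel]
        omega
    · rintro ⟨i, j, k⟩
      simp only [Set.mem_ofPred_eq, mem_benzel]
      omega
  · rintro ⟨i, j, k⟩
    simp only [mem_shift, mem_stone, mem_benzel]
    omega

lemma class_two_aux (n : ℕ) : ∀ a b : ℤ, a ≤ n → (a + b) % 3 = 2 → a ≤ b → b ≤ 2 * a - 1 →
    Tileable (benzel a b) := by
  induction n with
  | zero => intro a b h1 h2 h3 h4; push_cast at h1; omega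
  | succ n ih =>
    intro a b h1 h2 h3 h4
    push_cast at h1
    by_cases h5 : b = 2 * a - 1
    · have h6 := class_one a (b - 1) (by omega)
      convert h6 using 1
      ext ⟨i, j, k⟩
      rw [mem_benzel, mem_benzel]
      omega
    · exact ring2 a b ((a + b + 1) / 3) (by omega) h3 (by omega)
        (ih _ _ (by omega) (by omega) (by omega) (by omega))

/-- `a + b ≡ 2` mod `3`. -/
lemma class_two (a b : ℤ) (h2 : (a + b) % 3 = 2) (h3 : a ≤ b) (h4 : b ≤ 2 * a) :
    Tileable (benzel a b) :=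
  class_two_aux a.toNat a b (by omega) h2 h3 (by omega)


/-- The benzel `B(3τ-2m, 3τ-m)` with its three corners cut off. -/
def regT (m τ : ℤ) : Set V := {c | c ∈ benzel (3 * τ - 2 * m) (3 * τ - m) ∧
  c.1 ≤ τ - 1 ∧ c.2.1 ≤ τ - 1 ∧ c.2.2 ≤ τ - 1}

lemma mem_regT {m τ i j k : ℤ} : ((i, j, k) : V) ∈ regT m τ ↔
    ((i, j, k) : V) ∈ benzel (3 * τ - 2 * m) (3 * τ - m) ∧ i ≤ τ - 1 ∧ j ≤ τ - 1 ∧ k ≤ τ - 1 :=
  Iff.rfl

lemma thin1 (m τ : ℤ) : Tileable {c : V | c.1 + c.2.1 + c.2.2 = 1 ∧ c.2.2 = τ - 1 ∧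
    2 * m - 2 * τ ≤ c.1 ∧ c.1 ≤ τ - m - 1} := by
  apply tileable_rows
  · rintro ⟨i, j, k⟩ h; exact h.1
  · intro k
    by_cases hk : k = τ - 1
    · apply good_interval (2 * m - 2 * τ) (τ - m - 1)
      · intro i
        simp only [Set.mem_ofPred_eq]
        omega
      · omega
    · apply good_empty
      intro i
      simp only [Set.mem_ofPred_eq]
      omega

lemma thin2 (m τ : ℤ) : Tileable {c : V | c.1 + c.2.1 + c.2.2 = 1 ∧
    ((τ - m ≤ c.1 ∧ c.1 ≤ τ - 2 ∧ (c.2.2 = 3 * τ - 2 * m - 1 - 2 * c.1 ∨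
      c.2.2 = 3 * τ - 2 * m - 2 - 2 * c.1)) ∨
      (τ - m + 1 ≤ c.1 ∧ c.1 ≤ τ - 1 ∧ c.2.2 = 3 * τ - 2 * m - 2 * c.1))} := by
  apply tileable_stones (P := {p : V | p.1 + p.2.1 + p.2.2 = 0 ∧ τ - m ≤ p.1 ∧ p.1 ≤ τ - 2 ∧
    p.2.2 = 3 * τ - 2 * m - 2 - 2 * p.1})
  · rintro ⟨i, j, k⟩ ⟨h1, h2, h3⟩
    simp only [Set.mem_ofPred_eq, Prod.mk_add_mk] at *
    omega
  · rintro ⟨i, j, k⟩ hc
    simp only [Set.mem_ofPred_eq, Prod.mk_sub_mk] at *
    omega

lemma thin3 (m τ : ℤ) : Tileable {c : V | c.1 + c.2.1 + c.2.2 = 1 ∧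
    (c.1 = τ - 1 ∨ c.1 = τ - 2) ∧ m + 2 - 2 * τ ≤ c.2.2 ∧ c.2.2 ≤ τ - 2 * m + 1} := by
  apply tileable_bones (0, 1, -1) (Or.inr (Or.inl rfl))
    (B := {c : V | c.1 + c.2.1 + c.2.2 = 1 ∧
    (c.1 = τ - 1 ∨ c.1 = τ - 2) ∧ m + 2 - 2 * τ ≤ c.2.2 ∧ c.2.2 ≤ τ - 2 * m + 1 ∧
    (c.2.2 - (m + 2 - 2 * τ)) % 3 = 2})
  · rintro ⟨i, j, k⟩ ⟨h1, h2, h3⟩
    simp only [Set.mem_ofPred_eq, Prod.mk_add_mk] at *
    omega
  · rintro ⟨i, j, k⟩ hc
    simp only [Set.mem_ofPred_eq, Prod.mk_sub_mk] at *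
    omega

/-- The thin step. -/
lemma thin (m τ : ℤ) (hm : 2 ≤ m) (hτ : m ≤ τ) (h : Tileable (regT (m - 1) (τ - 1))) :
    Tileable (regT m τ) := by
  have h0 := tileable_image (Equiv.addRight ((-1, 1, 0) : V)) (add_tile _ (by norm_num)) h
  have h1 := thin1 m τ
  have h2 := thin2 m τ
  have h3 := thin3 m τ
  have h01 := tileable_union ?_ h0 h1
  · have h23 := tileable_union ?_ h2 h3
    · have h0123 := tileable_union ?_ h01 h23
      · convert h0123 using 1
        ext ⟨i, j, k⟩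
        simp only [Set.mem_union, mem_shift, Set.mem_ofPred_eq, mem_regT, mem_benzel]
        omega
      · rintro ⟨i, j, k⟩
        simp only [Set.mem_union, mem_shift, Set.mem_ofPred_eq, mem_regT, mem_benzel]
        omega
    · rintro ⟨i, j, k⟩
      simp only [Set.mem_ofPred_eq]
      omega
  · rintro ⟨i, j, k⟩
    simp only [mem_shift, Set.mem_ofPred_eq, mem_regT, mem_benzel]
    omega

/-- Three rotated copies of a region. -/
lemma tileable_three {P : Set V} (hP : Tileable P) (hd : ∀ c ∈ P, c ∉ rot '' P)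
    (hd2 : ∀ c ∈ P, c ∉ rot '' (rot '' P)) :
    Tileable (P ∪ (rot '' P ∪ rot '' (rot '' P))) := by
  have h1 := tileable_image rot rot_tile hP
  have h2 := tileable_image rot rot_tile h1
  apply tileable_union
  · intro c hc
    rintro (h | h)
    · exact hd c hc h
    · exact hd2 c hc h
  · exact hP
  · apply tileable_union
    · rintro c ⟨c', hc', rfl⟩ h
      rw [rot.injective.mem_set_image] at h
      exact hd c' hc' h
    · exact h1
    · exact h2

/-- Adding the three corners. -/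
lemma corners (m τ : ℤ) (hm : 1 ≤ m) (h : Tileable (regT m τ)) :
    Tileable (benzel (3 * τ - 2 * m) (3 * τ - m)) := by
  have hQ : Tileable {c : V | c ∈ benzel (3 * τ - 2 * m) (3 * τ - m) ∧ τ ≤ c.2.2} := by
    apply tileable_rows
    · rintro ⟨i, j, k⟩ h; exact h.1.1
    · intro k
      by_cases hk : τ ≤ k
      · by_cases hk2 : k ≤ 2 * τ - m
        · apply good_interval (k - (3 * τ - 2 * m) + 1) (3 * τ - m - 2 * k)
          · intro i
            simp only [Set.mem_ofPred_eq, mem_benzel]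
            omega
          · omega
        · apply good_empty
          intro i
          simp only [Set.mem_ofPred_eq, mem_benzel]
          omega
      · apply good_empty
        intro i
        simp only [Set.mem_ofPred_eq]
        omega
  have h3 := tileable_three hQ ?_ ?_
  · have h4 := tileable_union ?_ h h3
    · convert h4 using 1
      ext ⟨i, j, k⟩
      simp only [Set.mem_union, mem_rot, Set.mem_ofPred_eq, mem_regT, mem_benzel]
      omega
    · rintro ⟨i, j, k⟩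
      simp only [Set.mem_union, mem_rot, Set.mem_ofPred_eq, mem_regT, mem_benzel]
      omega
  · rintro ⟨i, j, k⟩
    simp only [mem_rot, Set.mem_ofPred_eq, mem_benzel]
    omega
  · rintro ⟨i, j, k⟩
    simp only [mem_rot, Set.mem_ofPred_eq, mem_benzel]
    omega

lemma T23 : Tileable (regT 2 3) := by
  have hP : Tileable {c : V | c.1 + c.2.1 + c.2.2 = 1 ∧
      ((c.2.2 = 1 ∧ 0 ≤ c.1 ∧ c.1 ≤ 2) ∨ (c.2.2 = 2 ∧ -1 ≤ c.1 ∧ c.1 ≤ 1))} := by
    apply tileable_rows
    · rintro ⟨i, j, k⟩ h; exact h.1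
    · intro k
      by_cases h1 : k = 1
      · apply good_interval 0 2
        · intro i; simp only [Set.mem_ofPred_eq]; omega
        · norm_num
      by_cases h2 : k = 2
      · apply good_interval (-1) 1
        · intro i; simp only [Set.mem_ofPred_eq]; omega
        · norm_num
      · apply good_empty
        intro i; simp only [Set.mem_ofPred_eq]; omega
  have h3 := tileable_three hP ?_ ?_
  · convert h3 using 1
    ext ⟨i, j, k⟩
    simp only [Set.mem_union, mem_rot, Set.mem_ofPred_eq, mem_regT, mem_benzel]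
    omega
  · rintro ⟨i, j, k⟩
    simp only [mem_rot, Set.mem_ofPred_eq]
    omega
  · rintro ⟨i, j, k⟩
    simp only [mem_rot, Set.mem_ofPred_eq]
    omega

set_option maxHeartbeats 4000000 in
lemma T35 : Tileable (regT 3 5) := by
  have hP : Tileable {c : V | c.1 + c.2.1 + c.2.2 = 1 ∧
      ((c.2.2 = -1 ∧ 0 ≤ c.1 ∧ c.1 ≤ 2) ∨ (c.2.2 = 1 ∧ 2 ≤ c.1 ∧ c.1 ≤ 4) ∨
      (c.2.2 = 2 ∧ 1 ≤ c.1 ∧ c.1 ≤ 3) ∨ (c.2.2 = 3 ∧ -2 ≤ c.1 ∧ c.1 ≤ 3) ∨
      (c.2.2 = 4 ∧ -3 ≤ c.1 ∧ c.1 ≤ 2))} := by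
    apply tileable_rows
    · rintro ⟨i, j, k⟩ h; exact h.1
    · intro k
      by_cases h0 : k = -1
      · apply good_interval 0 2
        · intro i; simp only [Set.mem_ofPred_eq]; omega
        · norm_num
      by_cases h1 : k = 1
      · apply good_interval 2 4
        · intro i; simp only [Set.mem_ofPred_eq]; omega
        · norm_num
      by_cases h2 : k = 2
      · apply good_interval 1 3
        · intro i; simp only [Set.mem_ofPred_eq]; omega
        · norm_num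
      by_cases h3 : k = 3
      · apply good_interval (-2) 3
        · intro i; simp only [Set.mem_ofPred_eq]; omega
        · norm_num
      by_cases h4 : k = 4
      · apply good_interval (-3) 2
        · intro i; simp only [Set.mem_ofPred_eq]; omega
        · norm_num
      · apply good_empty
        intro i; simp only [Set.mem_ofPred_eq]; omega
  have hS := tileable_stone (0, 0, 0) (by norm_num)
  have h3 := tileable_three hP ?_ ?_
  · have h4 := tileable_union ?_ h3 hS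
    · convert h4 using 1
      ext ⟨i, j, k⟩
      simp only [Set.mem_union, mem_rot, mem_stone, Set.mem_ofPred_eq, mem_regT, mem_benzel]
      constructor
      · intro h
        have hj : j = 1 - i - k := by omega
        have hk1 : -9 ≤ k ∧ k ≤ 4 := by omega
        have hi1 : -9 ≤ i ∧ i ≤ 4 := by omega
        subst hj
        obtain ⟨hk1, hk2⟩ := hk1
        obtain ⟨hi1, hi2⟩ := hi1
        interval_cases k <;> interval_cases i <;> first | (exfalso; omega) | (clear h; norm_num)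
      · rintro ((h | h | h) | h)
        · omega
        · omega
        · omega
        · omega
    · rintro ⟨i, j, k⟩
      simp only [Set.mem_union, mem_rot, mem_stone, Set.mem_ofPred_eq]
      omega
  · rintro ⟨i, j, k⟩
    simp only [mem_rot, Set.mem_ofPred_eq]
    omega
  · rintro ⟨i, j, k⟩
    simp only [mem_rot, Set.mem_ofPred_eq]
    omega

lemma core0 : Tileable {c : V | c.1 + c.2.1 + c.2.2 = 1 ∧
      ((c.2.2 = 0 ∧ 0 ≤ c.1 ∧ c.1 ≤ 5) ∨ (c.2.2 = 1 ∧ -1 ≤ c.1 ∧ c.1 ≤ 1) ∨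
      (c.2.2 = -2 ∧ 1 ≤ c.1 ∧ c.1 ≤ 3) ∨ (c.2.2 = -1 ∧ 1 ≤ c.1 ∧ c.1 ≤ 3))} := by
  apply tileable_rows
  · rintro ⟨i, j, k⟩ h; exact h.1
  · intro k
    by_cases h0 : k = 0
    · apply good_interval 0 5
      · intro i; simp only [Set.mem_ofPred_eq]; omega
      · norm_num
    by_cases h1 : k = 1
    · apply good_interval (-1) 1
      · intro i; simp only [Set.mem_ofPred_eq]; omega
      · norm_num
    by_cases h2 : k = -1
    · apply good_interval 1 3
      · intro i; simp only [Set.mem_ofPred_eq]; omega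
      · norm_num
    by_cases h3 : k = -2
    · apply good_interval 1 3
      · intro i; simp only [Set.mem_ofPred_eq]; omega
      · norm_num
    · apply good_empty
      intro i; simp only [Set.mem_ofPred_eq]; omega

lemma core1 : Tileable {c : V | c.1 + c.2.1 + c.2.2 = 1 ∧
      ((c.1 = 0 ∧ -4 ≤ c.2.2 ∧ c.2.2 ≤ -2) ∨ (c.1 = -2 ∧ 0 ≤ c.2.2 ∧ c.2.2 ≤ 2))} := by
  apply tileable_bones (0, 1, -1) (Or.inr (Or.inl rfl))
    (B := {c : V | c.1 + c.2.1 + c.2.2 = 1 ∧ ((c.1 = 0 ∧ c.2.2 = -2) ∨ (c.1 = -2 ∧ c.2.2 = 2))})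
  · rintro ⟨i, j, k⟩ ⟨h1, h2⟩
    simp only [Set.mem_ofPred_eq, Prod.mk_add_mk] at *
    omega
  · rintro ⟨i, j, k⟩ hc
    simp only [Set.mem_ofPred_eq, Prod.mk_sub_mk] at *
    omega

lemma core2 : Tileable {c : V | c.1 + c.2.1 + c.2.2 = 1 ∧
      ((c.2.1 = -2 ∧ 1 ≤ c.2.2 ∧ c.2.2 ≤ 3) ∨ (c.2.1 = 0 ∧ 3 ≤ c.2.2 ∧ c.2.2 ≤ 5))} := by
  apply tileable_bones (-1, 0, 1) (Or.inr (Or.inr rfl))
    (B := {c : V | c.1 + c.2.1 + c.2.2 = 1 ∧ ((c.2.1 = -2 ∧ c.2.2 = 1) ∨ (c.2.1 = 0 ∧ c.2.2 = 3))})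
  · rintro ⟨i, j, k⟩ ⟨h1, h2⟩
    simp only [Set.mem_ofPred_eq, Prod.mk_add_mk] at *
    omega
  · rintro ⟨i, j, k⟩ hc
    simp only [Set.mem_ofPred_eq, Prod.mk_sub_mk] at *
    omega

set_option maxHeartbeats 4000000 in
lemma T48 : Tileable (regT 4 8) := by
  have hP : Tileable {c : V | c.1 + c.2.1 + c.2.2 = 1 ∧
      ((c.2.2 = 1 ∧ 3 ≤ c.1 ∧ c.1 ≤ 5) ∨ (c.2.2 = 2 ∧ 2 ≤ c.1 ∧ c.1 ≤ 7) ∨
      (c.2.2 = 3 ∧ 1 ≤ c.1 ∧ c.1 ≤ 6) ∨ (c.2.2 = 4 ∧ -2 ≤ c.1 ∧ c.1 ≤ 6) ∨
      (c.2.2 = 5 ∧ -3 ≤ c.1 ∧ c.1 ≤ 5) ∨ (c.2.2 = 6 ∧ -6 ≤ c.1 ∧ c.1 ≤ 5) ∨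
      (c.2.2 = 7 ∧ -7 ≤ c.1 ∧ c.1 ≤ 4))} := by
    apply tileable_rows
    · rintro ⟨i, j, k⟩ h; exact h.1
    · intro k
      by_cases h1 : k = 1
      · apply good_interval 3 5
        · intro i; simp only [Set.mem_ofPred_eq]; omega
        · norm_num
      by_cases h2 : k = 2
      · apply good_interval 2 7
        · intro i; simp only [Set.mem_ofPred_eq]; omega
        · norm_num
      by_cases h3 : k = 3
      · apply good_interval 1 6
        · intro i; simp only [Set.mem_ofPred_eq]; omega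
        · norm_num
      by_cases h4 : k = 4
      · apply good_interval (-2) 6
        · intro i; simp only [Set.mem_ofPred_eq]; omega
        · norm_num
      by_cases h5 : k = 5
      · apply good_interval (-3) 5
        · intro i; simp only [Set.mem_ofPred_eq]; omega
        · norm_num
      by_cases h6 : k = 6
      · apply good_interval (-6) 5
        · intro i; simp only [Set.mem_ofPred_eq]; omega
        · norm_num
      by_cases h7 : k = 7
      · apply good_interval (-7) 4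
        · intro i; simp only [Set.mem_ofPred_eq]; omega
        · norm_num
      · apply good_empty
        intro i; simp only [Set.mem_ofPred_eq]; omega
  have hS1 := tileable_stone (-1, 2, -1) (by norm_num)
  have hS2 := tileable_stone (-1, -1, 2) (by norm_num)
  have h3 := tileable_three hP ?_ ?_
  · have hS := tileable_union ?_ hS1 hS2
    · have h12 := tileable_union ?_ core1 core2
      · have h012 := tileable_union ?_ core0 h12
        · have hcore := tileable_union ?_ h012 hS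
          · have h4 := tileable_union ?_ h3 hcore
            · convert h4 using 1
              ext ⟨i, j, k⟩
              simp only [Set.mem_union, mem_rot, mem_stone, Set.mem_ofPred_eq, mem_regT, mem_benzel]
              constructor
              · intro h
                have hj : j = 1 - i - k := by omega
                have hk1 : -14 ≤ k ∧ k ≤ 7 := by omega
                have hi1 : -14 ≤ i ∧ i ≤ 7 := by omega
                subst hj
                obtain ⟨hk1, hk2⟩ := hk1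
                obtain ⟨hi1, hi2⟩ := hi1
                interval_cases k <;> interval_cases i <;>
                  first | (exfalso; omega) | (clear h; norm_num)
              · rintro ((h | h | h) | (h | h | h) | h | h)
                · omega
                · omega
                · omega
                · omega
                · omega
                · omega
                · omega
                · omega
            · rintro ⟨i, j, k⟩
              simp only [Set.mem_union, mem_rot, mem_stone, Set.mem_ofPred_eq]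
              rintro (h | h | h) ((h' | h' | h') | h' | h') <;> omega
          · rintro ⟨i, j, k⟩
            simp only [Set.mem_union, mem_stone, Set.mem_ofPred_eq]
            rintro (h | h | h) (h' | h') <;> omega
        · rintro ⟨i, j, k⟩
          simp only [Set.mem_union, Set.mem_ofPred_eq]
          omega
      · rintro ⟨i, j, k⟩
        simp only [Set.mem_ofPred_eq]
        omega
    · rintro ⟨i, j, k⟩
      simp only [mem_stone]
      omega
  · rintro ⟨i, j, k⟩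
    simp only [mem_rot, Set.mem_ofPred_eq]
    omega
  · rintro ⟨i, j, k⟩
    simp only [mem_rot, Set.mem_ofPred_eq]
    omega

/-- The height of the staircase. -/
def gg (m τ v : ℤ) : ℤ := (τ - 2 * m + 1) - 2 * min ((τ - 1 - v) / 2) (m - 2)

lemma gg_bounds {m τ v : ℤ} (hm : 2 ≤ m) (h : v ≤ τ - 1) :
    τ - 2 * m + 1 - 2 * m + 4 ≤ gg m τ v ∧ gg m τ v ≤ τ - 2 * m + 1 := by
  unfold gg; omega

lemma gg_le_iff {m τ k i : ℤ} (h1 : τ - 2 * m + 1 - 2 * m + 5 ≤ k) :
    k ≤ gg m τ i ↔ τ - 2 * m + 1 + 2 * m - 4 - 2 * ((τ - 2 * m + 1 - k) / 2) < i := by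
  unfold gg
  generalize hQ : (τ - 2 * m + 1 - k) / 2 = Q
  generalize hF : (τ - 1 - i) / 2 = F
  have e1 : k ≤ τ - 2 * m + 1 - 2 * min F (m - 2) ↔ min F (m - 2) ≤ Q := by omega
  have e2 : Q < m - 2 := by omega
  have e3 : min F (m - 2) ≤ Q ↔ F ≤ Q := by omega
  rw [e1, e3]
  omega

/-- The part of `regT m τ` tiled by horizontal bones. -/
def regP (m τ : ℤ) : Set V := {c | c ∈ regT m τ ∧
  ((τ - 2 * m + 1 ≤ c.2.2 ∧ c.2.1 ≤ gg m τ c.2.2 ∧
      ¬ (τ - 2 * m + 1 ≤ c.1 ∧ c.2.2 ≤ gg m τ c.1)) ∨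
    (c.2.2 < τ - 2 * m + 1 ∧ 3 * (τ - 2 * m + 1) - 2 * (m - 2) - c.2.2 < 2 * c.1 ∧
      ¬ (τ - 2 * m + 1 ≤ c.1 ∧ c.2.2 ≤ gg m τ c.1)))}

lemma mem_regP {m τ i j k : ℤ} : ((i, j, k) : V) ∈ regP m τ ↔ ((i, j, k) : V) ∈ regT m τ ∧
  ((τ - 2 * m + 1 ≤ k ∧ j ≤ gg m τ k ∧
      ¬ (τ - 2 * m + 1 ≤ i ∧ k ≤ gg m τ i)) ∨
    (k < τ - 2 * m + 1 ∧ 3 * (τ - 2 * m + 1) - 2 * (m - 2) - k < 2 * i ∧
      ¬ (τ - 2 * m + 1 ≤ i ∧ k ≤ gg m τ i))) := Iff.rfl

set_option maxHeartbeats 4000000 in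
lemma tileable_regP (m τ : ℤ) (hm : 3 ≤ m) (hτ : 3 * m - 3 ≤ τ) : Tileable (regP m τ) := by
  apply tileable_rows
  · rintro ⟨i, j, k⟩ h; exact h.1.1.1
  intro k
  rcases le_or_gt τ k with h1 | h1
  · apply good_empty
    intro i
    simp only [Set.mem_ofPred_eq, mem_regP, mem_regT]
    omega
  rcases lt_trichotomy k (τ - 2 * m + 1) with h2 | h2 | h2
  · rcases lt_or_ge k (τ - 2 * m + 1 - 2 * m + 5) with h3 | h3
    · apply good_empty
      intro i
      simp only [Set.mem_ofPred_eq, mem_regP, mem_regT, mem_benzel]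
      intro h
      have hi : i ≤ τ - 1 := h.1.2.1
      have hg := gg_bounds (m := m) (τ := τ) (v := i) (by omega) hi
      omega
    · apply good_interval ((3 * (τ - 2 * m + 1) - 2 * m + 4 - k) / 2 + 1)
        (τ - 2 * m + 1 + 2 * m - 4 - 2 * ((τ - 2 * m + 1 - k) / 2))
      · intro i
        simp only [Set.mem_ofPred_eq, mem_regP, mem_regT, mem_benzel]
        constructor
        · intro h
          rw [gg_le_iff h3] at h
          omega
        · intro h
          rw [gg_le_iff h3]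
          omega
      · omega
  · subst h2
    apply good_interval (1 - (τ - 2 * m + 1) - gg m τ (τ - 2 * m + 1)) (τ - 3)
    · intro i
      simp only [Set.mem_ofPred_eq, mem_regP, mem_regT, mem_benzel, gg]
      omega
    · simp only [gg]
      omega
  · have hg := gg_bounds (m := m) (τ := τ) (v := k) (by omega) (by omega)
    apply good_interval (1 - k - gg m τ k) ((3 * τ - 2 * m - k) / 2)
    · intro i
      simp only [Set.mem_ofPred_eq, mem_regP, mem_regT, mem_benzel]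
      constructor
      · intro h
        omega
      · intro h
        have hi : i ≤ τ - 1 := by omega
        have hg' := gg_bounds (m := m) (τ := τ) (v := i) (by omega) hi
        omega
    · simp only [gg]
      omega

set_option maxHeartbeats 4000000 in
/-- The thick step. -/
lemma thick (m τ : ℤ) (hm : 3 ≤ m) (hτ : 3 * m - 3 ≤ τ)
    (h : Tileable (regT (m - 2) (τ - 2 * m + 1))) : Tileable (regT m τ) := by
  have hP := tileable_regP m τ hm hτ
  have h3 := tileable_three hP ?_ ?_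
  · have h4 := tileable_union ?_ h h3
    · convert h4 using 1
      ext ⟨i, j, k⟩
      simp only [Set.mem_union, mem_rot, mem_regP, mem_regT, mem_benzel]
      constructor
      · intro h
        have hgi := gg_bounds (m := m) (τ := τ) (v := i) (by omega) h.2.1
        have hgj := gg_bounds (m := m) (τ := τ) (v := j) (by omega) h.2.2.1
        have hgk := gg_bounds (m := m) (τ := τ) (v := k) (by omega) h.2.2.2
        omega
      · rintro (h | h | h | h)
        · omega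
        · exact h.1
        · omega
        · omega
    · rintro ⟨i, j, k⟩
      simp only [Set.mem_union, mem_rot, mem_regP, mem_regT, mem_benzel]
      intro h
      have hgi := gg_bounds (m := m) (τ := τ) (v := i) (by omega) (by omega)
      have hgj := gg_bounds (m := m) (τ := τ) (v := j) (by omega) (by omega)
      have hgk := gg_bounds (m := m) (τ := τ) (v := k) (by omega) (by omega)
      omega
  · rintro ⟨i, j, k⟩
    simp only [mem_rot, mem_regP, mem_regT, mem_benzel]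
    intro h
    have hgi := gg_bounds (m := m) (τ := τ) (v := i) (by omega) h.1.2.1
    have hgj := gg_bounds (m := m) (τ := τ) (v := j) (by omega) h.1.2.2.1
    have hgk := gg_bounds (m := m) (τ := τ) (v := k) (by omega) h.1.2.2.2
    omega
  · rintro ⟨i, j, k⟩
    simp only [mem_rot, mem_regP, mem_regT, mem_benzel]
    intro h
    have hgi := gg_bounds (m := m) (τ := τ) (v := i) (by omega) h.1.2.1
    have hgj := gg_bounds (m := m) (τ := τ) (v := j) (by omega) h.1.2.2.1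
    have hgk := gg_bounds (m := m) (τ := τ) (v := k) (by omega) h.1.2.2.2
    omega

/-- Triangular numbers. -/
def tri (m : ℤ) : ℤ := m * (m + 1) / 2

lemma two_tri (m : ℤ) : 2 * tri m = m * (m + 1) := by
  obtain ⟨r, hr⟩ := Int.even_mul_succ_self m
  unfold tri
  rw [hr]
  omega

lemma tri_sub_one (m : ℤ) : tri (m - 1) = tri m - m := by
  have h1 := two_tri m
  have h2 := two_tri (m - 1)
  nlinarith

lemma tri_sub_two (m : ℤ) : tri (m - 2) = tri m - 2 * m + 1 := by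
  have h1 := two_tri m
  have h2 := two_tri (m - 2)
  nlinarith

lemma tileable_T (n : ℕ) : ∀ m τ : ℤ, m ≤ n → 1 ≤ m → m ≤ τ → τ ≤ tri m →
    Tileable (regT m τ) := by
  induction n with
  | zero => intro m τ h1 h2; push_cast at h1; omega
  | succ n ih =>
    intro m τ h1 h2 h3 h4
    push_cast at h1
    have ht := two_tri m
    have ht1 := tri_sub_one m
    have ht2 := tri_sub_two m
    by_cases h5 : τ - 1 ≤ tri (m - 1)
    · by_cases h6 : m = 1
      · have h7 : tri 1 = 1 := by have := two_tri 1; omega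
        subst h6
        convert tileable_empty
        rw [Set.eq_empty_iff_forall_notMem]
        rintro ⟨i, j, k⟩
        rw [mem_regT, mem_benzel]
        omega
      · exact thin m τ (by omega) h3 (ih _ _ (by omega) (by omega) (by omega) h5)
    · have key : 3 * m - 3 ≤ τ → 3 ≤ m → Tileable (regT m τ) := by
        intro h8 h9
        exact thick m τ h9 h8 (ih _ _ (by omega) (by omega) (by omega) (by omega))
      by_cases h5' : 5 ≤ m
      · have h10 : 0 ≤ (m - 2) * (m - 5) := mul_nonneg (by omega) (by omega)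
        have h11 : 3 * m - 4 ≤ tri m - m + 1 := by nlinarith
        exact key (by omega) (by omega)
      · have h6 : m = 1 ∨ m = 2 ∨ m = 3 ∨ m = 4 := by omega
        rcases h6 with rfl | rfl | rfl | rfl
        · exfalso; omega
        · have : τ = 3 := by omega
          subst this
          exact T23
        · have : τ = 5 ∨ τ = 6 := by omega
          rcases this with rfl | rfl
          · exact T35
          · exact key (by norm_num) (by norm_num)
        · have : τ = 8 ∨ 9 ≤ τ := by omega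
          rcases this with rfl | h12
          · exact T48
          · exact key (by omega) (by norm_num)

/-- `a + b ≡ 0` mod `3`. -/
lemma class_zero (a b : ℤ) (h1 : 1 ≤ a) (h2 : (a + b) % 3 = 0) (h3 : a ≤ b) (h4 : b ≤ 2 * a)
    (h5 : a + b ≤ 3 * (a - b) ^ 2) : Tileable (benzel a b) := by
  obtain ⟨d, rfl⟩ : ∃ d, b = a + d := ⟨b - a, by ring⟩
  obtain ⟨τ, rfl⟩ : ∃ τ, a = 3 * τ - 2 * d := ⟨(a + 2 * d) / 3, by omega⟩
  have hd := two_tri d
  have e1 : τ ≤ tri d := by nlinarith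
  have e2 : 1 ≤ d := by
    by_contra h
    have h6 : d = 0 := by omega
    subst h6
    norm_num at h5
    omega
  have key := corners d τ e2 (tileable_T d.toNat d τ (by omega) e2 (by omega) e1)
  convert key using 2; ring

lemma all_classes {a b : ℤ} (h1 : 2 ≤ a) (h3 : a ≤ b) (h4 : b ≤ 2 * a) (h : 0 ≤ inv a b) :
    Tileable (benzel a b) := by
  unfold inv at h
  split_ifs at h with h5 h6
  · apply class_zero a b (by omega) h5 h3 h4
    have e1 : 3 * a ^ 2 - 6 * a * b + 3 * b ^ 2 - a - b = 3 * (a - b) ^ 2 - (a + b) := by ring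
    rw [e1] at h
    omega
  · exact class_one a b h6
  · exact class_two a b (by omega) h3 h4

lemma inv_comm (a b : ℤ) : inv a b = inv b a := by
  unfold inv
  rw [add_comm a b]
  split_ifs <;> congr 1 <;> ring

lemma benzel_swp (a b : ℤ) : swp '' benzel b a = benzel a b := by
  ext ⟨i, j, k⟩
  rw [mem_swp, mem_benzel, mem_benzel]
  omega

theorem result : ∀ a b : ℤ, 2 ≤ a → a ≤ 2 * b → 2 ≤ b → b ≤ 2 * a → 0 ≤ inv a b →
    ∃ T : Set (Set V), IsTiling T (benzel a b) := by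
  intro a b h1 h2 h3 h4 h
  rcases le_total a b with hab | hab
  · exact all_classes h1 hab h4 h
  · have := tileable_image swp swp_tile (all_classes h3 hab h2 (inv_comm a b ▸ h))
    rwa [benzel_swp] at this

end Pool.Agent.Results.MP_59b97c_co.RightStonesBones
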